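import Pool.Agent.W225.RP.Det

/-!
# Rigid placements of `(d,d)`-tight graphs in `ℓ_q^d` for all `q > 1` which are not even integers
-/

set_option autoImplicit false

namespace Pool.Agent.Results.MP_3a76b1_co.OddExponents

open scoped ENNReal
open Pool.Agent.H568R3
open Pool.Agent.W225.RP

/-- For every `d ≥ 1` and every finite simple graph `G` whose edge set is the disjoint union of the
edge sets of `d` spanning trees there is a finite set `B` of even integers such that `G` has an
infinitesimally rigid placement in `ℓ_q^d` for every real number `q > 1` which is not in `B`; in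
particular for every odd integer `q ≥ 3` and every non-integral `q > 1`. -/
theorem result (V : Type) [Finite V] (d : ℕ) (hd : 1 ≤ d) (G : SimpleGraph V)
    (T : Fin d → SimpleGraph V) (hT : ∀ i, (T i).IsTree)
    (hdisj : ∀ i j, i ≠ j → Disjoint (T i) (T j)) (hG : G = ⨆ i, T i) :
    ∃ B : Finset ℕ, (∀ m ∈ B, Even m) ∧ ∀ q : ℝ, 1 < q → (∀ m ∈ B, (m : ℝ) ≠ q) →
      ∃ p : V → Fin d → ℝ, Rigid (ENNReal.ofReal q) G p := by
  classical
  have hle : ∀ i, T i ≤ G := fun i => hG ▸ le_iSup T i
  have hne : Nonempty V := (hT ⟨0, hd⟩).connected.nonempty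
  obtain ⟨p0, N, hN⟩ := exists_rigid_large hd G T hle (fun i => (hT i).connected) hdisj
  refine ⟨(Finset.range (⌈N⌉₊ + 1)).filter Even, fun m hm => (Finset.mem_filter.1 hm).2, ?_⟩
  intro q hq hqB
  by_cases hqi : ∀ m : ℤ, (m : ℝ) ≠ q
  · obtain ⟨p, hp⟩ := exists_rigid (J := Unit) hd hq hqi (fun _ => G) (fun _ => T)
      (fun _ => hle) (fun _ i => (hT i).connected) (fun _ => hdisj)
    exact ⟨p, hp ()⟩
  · push Not at hqi
    obtain ⟨m, hm⟩ := hqi
    have hm1 : 1 < m := by
      have : (1 : ℝ) < m := by rw [hm]; exact hq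
      exact_mod_cast this
    obtain ⟨n, rfl⟩ : ∃ n : ℕ, m = n := ⟨m.toNat, by omega⟩
    have hn1 : 1 < n := by exact_mod_cast hm1
    have hnq : (n : ℝ) = q := by rw [← hm]; norm_cast
    rcases Nat.even_or_odd n with he | ho
    · refine ⟨p0, hN q ?_⟩
      by_contra hlt
      push Not at hlt
      apply hqB n _ hnq
      rw [Finset.mem_filter, Finset.mem_range]
      refine ⟨?_, he⟩
      have h1 : (n : ℝ) < ⌈N⌉₊ := by
        rw [hnq]
        exact hlt.trans_le (Nat.le_ceil N)
      have h2 : n < ⌈N⌉₊ := by exact_mod_cast h1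
      omega
    · obtain ⟨j, hj⟩ := ho
      obtain ⟨k, rfl⟩ : ∃ k, j = k + 1 := ⟨j - 1, by omega⟩
      obtain ⟨p, hp⟩ := exists_rigid_odd hd k G T hle (fun i => (hT i).connected) hdisj
      refine ⟨p, ?_⟩
      have h1 : ((2 * (k + 1) : ℕ) : ℝ) + 1 = q := by
        rw [← hnq, hj]
        push_cast
        ring
      rw [h1] at hp
      exact hp

end Pool.Agent.Results.MP_3a76b1_co.OddExponents
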